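import Pool.Agent.Helper53.BM.MH.Defs

set_option autoImplicit false

open Filter Topology

namespace Pool.Agent.Helper53.BM

universe u

variable {E : Type u} [NormedAddCommGroup E] [NormedSpace ℝ E]

/-- Almost additivity of the increments of the duality map at unit vectors. -/
lemma J_almost_additive (h : MicroSp E) {L : ℝ} (hL0 : 0 < L)
    (hL : ∀ x y : E, ‖J x - J y‖ ≤ L * ‖x - y‖) {ε : ℝ} (hε : 0 < ε) :
    ∃ t : ℝ, 0 < t ∧ ∀ x : E, ‖x‖ = 1 → ∀ a b : E, ‖a‖ ≤ t →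
      ‖(J (x + a + b) - J (x + a)) - (J (x + b) - J x)‖ ≤ ε * ‖b‖ := by
  obtain ⟨t₀, ht₀, hmod⟩ := h.hmt (ε / (8 * L)) (by positivity)
  refine ⟨min (min (1 / 2) (t₀ / 2)) (ε / (8 * L)), by positivity, fun x hx a b ha => ?_⟩
  have ha1 : ‖a‖ ≤ 1 / 2 := ha.trans ((min_le_left _ _).trans (min_le_left _ _))
  have ha2 : ‖a‖ ≤ t₀ / 2 := ha.trans ((min_le_left _ _).trans (min_le_right _ _))
  have ha3 : ‖a‖ ≤ ε / (8 * L) := ha.trans (min_le_right _ _)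
  set r : ℝ := ‖x + a‖ with hr
  have hr1 : |r - 1| ≤ ‖a‖ := by
    have h3 := abs_norm_sub_norm_le (x + a) x
    rw [hx, add_sub_cancel_left] at h3
    exact h3
  have hr2 : 1 / 2 ≤ r := by
    have := abs_le.mp hr1
    linarith
  have hr0 : 0 < r := by linarith
  obtain ⟨T, hT, hTc⟩ := hmod x (r⁻¹ • (x + a)) hx
      (by rw [norm_smul, norm_inv, Real.norm_of_nonneg hr0.le, inv_mul_cancel₀ hr0.ne'])
      (by
        rw [norm_sub_rev]
        exact (norm_normalize_sub hx ha1).trans (by linarith))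
  set θ : ℝ := ε / (8 * L) with hθ
  have hθ0 : 0 < θ := by positivity
  have hxa : x + a = r • T x := by rw [hT, smul_smul, mul_inv_cancel₀ hr0.ne', one_smul]
  set b' : E := T.symm (r⁻¹ • b) with hb'
  have hb : b = r • T b' := by
    rw [hb', T.apply_symm_apply, smul_smul, mul_inv_cancel₀ hr0.ne', one_smul]
  set Φ : E → StrongDual ℝ E := fun b => J (x + b) - J x with hΦ
  have hΦL : ∀ b c : E, ‖Φ b - Φ c‖ ≤ L * ‖b - c‖ := by
    intro b c
    have h1 : Φ b - Φ c = J (x + b) - J (x + c) := by simp [hΦ]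
    rw [h1]
    refine (hL _ _).trans (le_of_eq ?_)
    congr 2
    abel
  have hΦ0 : ∀ b : E, ‖Φ b‖ ≤ L * ‖b‖ := by
    intro b
    have h1 := hΦL b 0
    simpa [hΦ] using h1
  have h1 : J (x + a + b) - J (x + a) = r • push T (Φ b') := by
    have h2 : x + a + b = r • T (x + b') := by
      rw [map_add, smul_add, ← hxa, ← hb]
    rw [h2, hxa, J_smul h.hmt, J_smul h.hmt, J_map h.hmt, J_map h.hmt, hΦ, push_sub, smul_sub]
  rw [h1]
  have hnb' : ‖b'‖ = r⁻¹ * ‖b‖ := by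
    rw [hb', LinearIsometryEquiv.norm_map, norm_smul, norm_inv, Real.norm_of_nonneg hr0.le]
  have hrinv : r⁻¹ ≤ 2 := by
    rw [inv_le_comm₀ hr0 (by norm_num)]
    linarith
  have hb'n : ‖b'‖ ≤ 2 * ‖b‖ := by
    rw [hnb']
    gcongr
  have hbb : ‖b' - b‖ ≤ (2 * θ + 2 * ‖a‖) * ‖b‖ := by
    have h3 : b' - b = (T.symm (r⁻¹ • b) - r⁻¹ • b) + (r⁻¹ - 1) • b := by
      rw [hb', sub_smul, one_smul]
      abel
    rw [h3]
    refine (norm_add_le _ _).trans ?_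
    have h4 := hTc.symm (r⁻¹ • b)
    have h5 : ‖r⁻¹ • b‖ ≤ 2 * ‖b‖ := by
      rw [norm_smul, norm_inv, Real.norm_of_nonneg hr0.le]
      gcongr
    have h6 : ‖(r⁻¹ - 1) • b‖ ≤ 2 * ‖a‖ * ‖b‖ := by
      rw [norm_smul]
      have h7 : ‖r⁻¹ - 1‖ ≤ 2 * ‖a‖ := by
        have h8 : r⁻¹ - 1 = r⁻¹ * (1 - r) := by
          rw [mul_sub, inv_mul_cancel₀ hr0.ne', mul_one]
        rw [h8, norm_mul, norm_inv, Real.norm_of_nonneg hr0.le, Real.norm_eq_abs, abs_sub_comm]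
        gcongr
      gcongr
    calc ‖T.symm (r⁻¹ • b) - r⁻¹ • b‖ + ‖(r⁻¹ - 1) • b‖
        ≤ θ * (2 * ‖b‖) + 2 * ‖a‖ * ‖b‖ := by
          refine add_le_add (h4.trans ?_) h6
          gcongr
      _ = (2 * θ + 2 * ‖a‖) * ‖b‖ := by ring
  have h2 : r • push T (Φ b') - Φ b =
      (r - 1) • push T (Φ b') + ((push T (Φ b') - Φ b') + (Φ b' - Φ b)) := by
    module
  show ‖r • push T (Φ b') - Φ b‖ ≤ ε * ‖b‖
  rw [h2]
  have h3 : ‖(r - 1) • push T (Φ b')‖ ≤ ‖a‖ * (L * (2 * ‖b‖)) := by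
    rw [norm_smul, Real.norm_eq_abs]
    have h4 := (norm_push_le T (Φ b')).trans ((hΦ0 b').trans
      (mul_le_mul_of_nonneg_left hb'n hL0.le))
    gcongr
  have h4 : ‖push T (Φ b') - Φ b'‖ ≤ θ * (L * (2 * ‖b‖)) := by
    refine (norm_push_sub_le hθ0.le hTc _).trans ?_
    have h4 := (hΦ0 b').trans (mul_le_mul_of_nonneg_left hb'n hL0.le)
    gcongr
  have h5 : ‖Φ b' - Φ b‖ ≤ L * ((2 * θ + 2 * ‖a‖) * ‖b‖) := by
    refine (hΦL _ _).trans ?_
    gcongr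
  calc ‖(r - 1) • push T (Φ b') + ((push T (Φ b') - Φ b') + (Φ b' - Φ b))‖
      ≤ ‖(r - 1) • push T (Φ b')‖ + (‖push T (Φ b') - Φ b'‖ + ‖Φ b' - Φ b‖) :=
        (norm_add_le _ _).trans (by gcongr; exact norm_add_le _ _)
    _ ≤ ‖a‖ * (L * (2 * ‖b‖)) + (θ * (L * (2 * ‖b‖)) + L * ((2 * θ + 2 * ‖a‖) * ‖b‖)) := by
        gcongr
    _ = 4 * L * (θ + ‖a‖) * ‖b‖ := by ring
    _ ≤ 4 * L * (θ + θ) * ‖b‖ := by gcongr
    _ = ε * ‖b‖ := by
        rw [hθ]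
        field_simp
        ring

/-- The increments of the duality map at unit vectors, dyadic scaling. -/
lemma J_dyadic (h : MicroSp E) {L : ℝ} (hL0 : 0 < L)
    (hL : ∀ x y : E, ‖J x - J y‖ ≤ L * ‖x - y‖) {ε : ℝ} (hε : 0 < ε) :
    ∃ t : ℝ, 0 < t ∧ ∀ x : E, ‖x‖ = 1 → ∀ u : E, ∀ n : ℕ, (n : ℝ) * ‖u‖ ≤ t →
      ‖(J (x + (n : ℝ) • u) - J x) - (n : ℝ) • (J (x + u) - J x)‖ ≤ n * (ε * ‖u‖) := by
  obtain ⟨t, ht, H⟩ := J_almost_additive h hL0 hL hε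
  refine ⟨t, ht, fun x hx u n => ?_⟩
  induction n with
  | zero => intro _; simp
  | succ n ih =>
    intro hn
    push_cast at hn ⊢
    have hn' : (n : ℝ) * ‖u‖ ≤ t := by nlinarith [norm_nonneg u]
    have h1 := ih hn'
    have h2 := H x hx ((n : ℝ) • u) u (by rw [norm_smul]; simpa using hn')
    have h3 : (J (x + ((n : ℝ) + 1) • u) - J x) - ((n : ℝ) + 1) • (J (x + u) - J x) =
        ((J (x + (n : ℝ) • u + u) - J (x + (n : ℝ) • u)) - (J (x + u) - J x)) +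
        ((J (x + (n : ℝ) • u) - J x) - (n : ℝ) • (J (x + u) - J x)) := by
      rw [add_smul, one_smul, add_smul, one_smul, add_assoc]
      abel
    rw [h3]
    refine (norm_add_le _ _).trans ?_
    linarith

/-- The duality map is differentiable at unit vectors. -/
lemma J_differentiable_unit (h : MicroSp E) {L : ℝ} (hL0 : 0 < L)
    (hL : ∀ x y : E, ‖J x - J y‖ ≤ L * ‖x - y‖) {x : E} (hx : ‖x‖ = 1) :
    ∃ g : E →L[ℝ] StrongDual ℝ E, HasFDerivAt J g x := by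
  set Φ : E → StrongDual ℝ E := fun b => J (x + b) - J x with hΦ
  have hΦ0 : ∀ b : E, ‖Φ b‖ ≤ L * ‖b‖ := by
    intro b
    have h1 := hL (x + b) x
    rwa [add_sub_cancel_left] at h1
  set G : ℕ → E → StrongDual ℝ E := fun n v => (2 : ℝ) ^ n • Φ (((2 : ℝ) ^ n)⁻¹ • v) with hG
  -- key comparison
  have key : ∀ ε : ℝ, 0 < ε → ∃ t : ℝ, 0 < t ∧ ∀ v : E, ∀ n m : ℕ, n ≤ m →
      ((2 : ℝ) ^ n)⁻¹ * ‖v‖ ≤ t → ‖G n v - G m v‖ ≤ ε * ‖v‖ := by
    intro ε hε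
    obtain ⟨t, ht, H⟩ := J_dyadic h hL0 hL hε
    refine ⟨t, ht, fun v n m hnm hv => ?_⟩
    obtain ⟨k, rfl⟩ := Nat.exists_eq_add_of_le hnm
    have h2n : (0 : ℝ) < 2 ^ n := by positivity
    have h2k : (0 : ℝ) < 2 ^ k := by positivity
    have h2nk : (0 : ℝ) < 2 ^ (n + k) := by positivity
    have h1 := H x hx (((2 : ℝ) ^ (n + k))⁻¹ • v) (2 ^ k) (by
      rw [norm_smul, norm_inv, Real.norm_of_nonneg h2nk.le]
      refine le_trans (le_of_eq ?_) hv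
      push_cast
      rw [pow_add]
      field_simp)
    push_cast at h1
    have h3 : (2 : ℝ) ^ k • ((2 : ℝ) ^ (n + k))⁻¹ • v = ((2 : ℝ) ^ n)⁻¹ • v := by
      rw [smul_smul]
      congr 1
      rw [pow_add]
      field_simp
    rw [h3] at h1
    have h4 : G n v - G (n + k) v = (2 : ℝ) ^ n • (Φ (((2 : ℝ) ^ n)⁻¹ • v) -
        (2 : ℝ) ^ k • Φ (((2 : ℝ) ^ (n + k))⁻¹ • v)) := by
      have h5 : G n v = (2 : ℝ) ^ n • Φ (((2 : ℝ) ^ n)⁻¹ • v) := rfl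
      have h6 : G (n + k) v = (2 : ℝ) ^ (n + k) • Φ (((2 : ℝ) ^ (n + k))⁻¹ • v) := rfl
      rw [h5, h6]
      generalize Φ (((2 : ℝ) ^ n)⁻¹ • v) = A
      generalize Φ (((2 : ℝ) ^ (n + k))⁻¹ • v) = B
      rw [pow_add]
      module
    rw [h4, norm_smul, Real.norm_of_nonneg h2n.le]
    have h5 : ‖(((2 : ℝ) ^ (n + k))⁻¹ • v : E)‖ = ((2 : ℝ) ^ (n + k))⁻¹ * ‖v‖ := by
      rw [norm_smul, norm_inv, Real.norm_of_nonneg h2nk.le]
    rw [h5] at h1
    calc (2 : ℝ) ^ n * ‖Φ (((2 : ℝ) ^ n)⁻¹ • v) - (2 : ℝ) ^ k • Φ (((2 : ℝ) ^ (n + k))⁻¹ • v)‖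
        ≤ (2 : ℝ) ^ n * ((2 : ℝ) ^ k * (ε * (((2 : ℝ) ^ (n + k))⁻¹ * ‖v‖))) := by
          gcongr
      _ = ε * ‖v‖ := by
          rw [pow_add]
          field_simp
  have hsmall : ∀ (v : E) (t : ℝ), 0 < t → ∃ N : ℕ, ∀ n, N ≤ n → ((2 : ℝ) ^ n)⁻¹ * ‖v‖ ≤ t := by
    intro v t ht
    have h1 : Tendsto (fun n : ℕ => ((2 : ℝ) ^ n)⁻¹ * ‖v‖) atTop (𝓝 (0 * ‖v‖)) := by
      refine Tendsto.mul_const _ ?_
      exact tendsto_inv_atTop_zero.comp (tendsto_pow_atTop_atTop_of_one_lt (by norm_num))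
    rw [zero_mul] at h1
    exact eventually_atTop.mp ((h1.eventually (gt_mem_nhds ht)).mono fun n hn => hn.le)
  have hcauchy : ∀ v : E, CauchySeq fun n => G n v := by
    intro v
    rw [Metric.cauchySeq_iff']
    intro ε hε
    obtain ⟨t, ht, H⟩ := key (ε / (2 * (‖v‖ + 1))) (by positivity)
    obtain ⟨N, hN⟩ := hsmall v t ht
    refine ⟨N, fun n hn => ?_⟩
    rw [dist_eq_norm, norm_sub_rev]
    refine (H v N n hn (hN N le_rfl)).trans_lt ?_
    rw [div_mul_eq_mul_div, div_lt_iff₀ (by positivity)]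
    nlinarith [norm_nonneg v]
  choose g hg using fun v => cauchySeq_tendsto_of_complete (hcauchy v)
  have hgn : ∀ v, ‖g v‖ ≤ L * ‖v‖ := by
    intro v
    refine le_of_tendsto (hg v).norm (Eventually.of_forall fun n => ?_)
    have h2n : (0 : ℝ) < 2 ^ n := by positivity
    simp only [hG]
    rw [norm_smul, Real.norm_of_nonneg h2n.le]
    calc (2 : ℝ) ^ n * ‖Φ (((2 : ℝ) ^ n)⁻¹ • v)‖ ≤ 2 ^ n * (L * ‖((2 : ℝ) ^ n)⁻¹ • v‖) := by
          gcongr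
          exact hΦ0 _
      _ = L * ‖v‖ := by
          rw [norm_smul, norm_inv, Real.norm_of_nonneg h2n.le]
          field_simp
  have hadd : ∀ v w, g (v + w) = g v + g w := by
    intro v w
    have h1 : Tendsto (fun n => G n (v + w) - G n v - G n w) atTop (𝓝 (g (v + w) - g v - g w)) :=
      ((hg _).sub (hg _)).sub (hg _)
    have h2 : Tendsto (fun n => G n (v + w) - G n v - G n w) atTop (𝓝 0) := by
      rw [Metric.tendsto_atTop]
      intro ε hε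
      obtain ⟨t, ht, H⟩ := J_almost_additive h hL0 hL (ε := ε / (2 * (‖w‖ + 1))) (by positivity)
      obtain ⟨N, hN⟩ := hsmall v t ht
      refine ⟨N, fun n hn => ?_⟩
      have h2n : (0 : ℝ) < 2 ^ n := by positivity
      rw [dist_zero_right]
      have h3 := H x hx (((2 : ℝ) ^ n)⁻¹ • v) (((2 : ℝ) ^ n)⁻¹ • w) (by
        rw [norm_smul, norm_inv, Real.norm_of_nonneg h2n.le]
        exact hN n hn)
      have h4 : G n (v + w) - G n v - G n w = (2 : ℝ) ^ n •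
          ((J (x + ((2 : ℝ) ^ n)⁻¹ • v + ((2 : ℝ) ^ n)⁻¹ • w) - J (x + ((2 : ℝ) ^ n)⁻¹ • v)) -
            (J (x + ((2 : ℝ) ^ n)⁻¹ • w) - J x)) := by
        have h5 : G n (v + w) = (2 : ℝ) ^ n • Φ (((2 : ℝ) ^ n)⁻¹ • (v + w)) := rfl
        have h6 : G n v = (2 : ℝ) ^ n • (J (x + ((2 : ℝ) ^ n)⁻¹ • v) - J x) := rfl
        have h7 : G n w = (2 : ℝ) ^ n • (J (x + ((2 : ℝ) ^ n)⁻¹ • w) - J x) := rfl
        have h8 : Φ (((2 : ℝ) ^ n)⁻¹ • (v + w)) =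
            J (x + ((2 : ℝ) ^ n)⁻¹ • v + ((2 : ℝ) ^ n)⁻¹ • w) - J x := by
          rw [smul_add, add_assoc]
        rw [h5, h6, h7, h8]
        module
      rw [h4, norm_smul, Real.norm_of_nonneg h2n.le]
      calc (2 : ℝ) ^ n * ‖(J (x + ((2 : ℝ) ^ n)⁻¹ • v + ((2 : ℝ) ^ n)⁻¹ • w) -
            J (x + ((2 : ℝ) ^ n)⁻¹ • v)) - (J (x + ((2 : ℝ) ^ n)⁻¹ • w) - J x)‖
          ≤ (2 : ℝ) ^ n * (ε / (2 * (‖w‖ + 1)) * ‖((2 : ℝ) ^ n)⁻¹ • w‖) := by
            gcongr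
        _ = ε / (2 * (‖w‖ + 1)) * ‖w‖ := by
            rw [norm_smul, norm_inv, Real.norm_of_nonneg h2n.le]
            field_simp
        _ < ε := by
            rw [div_mul_eq_mul_div, div_lt_iff₀ (by positivity)]
            nlinarith [norm_nonneg w]
    have h3 := tendsto_nhds_unique h1 h2
    rw [sub_sub, sub_eq_zero] at h3
    exact h3
  let g₀ : E →+ StrongDual ℝ E := AddMonoidHom.mk' g hadd
  have hcont : Continuous g₀ := by
    refine (LipschitzWith.of_dist_le_mul (K := L.toNNReal) fun v w => ?_).continuous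
    rw [dist_eq_norm, dist_eq_norm, ← map_sub, Real.coe_toNNReal _ hL0.le]
    exact hgn _
  refine ⟨g₀.toRealLinearMap hcont, ?_⟩
  rw [hasFDerivAt_iff_isLittleO_nhds_zero, Asymptotics.isLittleO_iff]
  intro ε hε
  obtain ⟨t, ht, H⟩ := key ε hε
  filter_upwards [Metric.ball_mem_nhds (0 : E) ht] with v hv
  rw [Metric.mem_ball, dist_zero_right] at hv
  have h1 : Tendsto (fun n => ‖G 0 v - G n v‖) atTop (𝓝 ‖G 0 v - g v‖) :=
    (tendsto_const_nhds.sub (hg v)).norm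
  have h2 : ‖G 0 v - g v‖ ≤ ε * ‖v‖ :=
    le_of_tendsto h1 (Eventually.of_forall fun n => H v 0 n (Nat.zero_le _) (by simpa using hv.le))
  have h3 : G 0 v = J (x + v) - J x := by simp [hG, hΦ]
  rw [h3] at h2
  exact h2

/-- The duality map is differentiable off zero. -/
lemma J_differentiableAt (h : MicroSp E) {L : ℝ} (hL0 : 0 < L)
    (hL : ∀ x y : E, ‖J x - J y‖ ≤ L * ‖x - y‖) {x : E} (hx : x ≠ 0) :
    DifferentiableAt ℝ (J : E → StrongDual ℝ E) x := by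
  have hxn : 0 < ‖x‖ := norm_pos_iff.mpr hx
  have hu : ‖‖x‖⁻¹ • x‖ = 1 := by rw [norm_smul, norm_inv, norm_norm, inv_mul_cancel₀ hxn.ne']
  obtain ⟨g, hg⟩ := J_differentiable_unit h hL0 hL hu
  have h1 : (J : E → StrongDual ℝ E) = fun y => ‖x‖ • J (‖x‖⁻¹ • y) := by
    funext y
    rw [J_smul h.hmt, smul_smul, mul_inv_cancel₀ hxn.ne', one_smul]
  rw [h1]
  have h2 : DifferentiableAt ℝ (fun y : E => J (‖x‖⁻¹ • y)) x := by
    have h3 : DifferentiableAt ℝ (fun y : E => ‖x‖⁻¹ • y) x :=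
      differentiableAt_id.const_smul _
    exact DifferentiableAt.comp x hg.differentiableAt h3
  exact DifferentiableAt.const_smul (R := ℝ) h2 ‖x‖

/-- Half the squared norm is differentiable with derivative `J`. -/
lemma halfSq_hasFDerivAt {L : ℝ} (hL0 : 0 < L)
    (hL : ∀ x y : E, ‖J x - J y‖ ≤ L * ‖x - y‖) (y : E) :
    HasFDerivAt (fun z : E => ‖z‖ ^ 2 / 2) (J y) y := by
  rw [hasFDerivAt_iff_isLittleO_nhds_zero, Asymptotics.isLittleO_iff]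
  intro ε hε
  filter_upwards [Metric.ball_mem_nhds (0 : E) (show 0 < ε / L by positivity)] with v hv
  rw [Metric.mem_ball, dist_zero_right] at hv
  have hdual : ∀ p q : E, ‖p‖ ^ 2 / 2 + J p (q - p) ≤ ‖q‖ ^ 2 / 2 := by
    intro p q
    have h1 := (dual_J p).apply_le q
    rw [map_sub, J_apply_self]
    nlinarith [sq_nonneg (‖p‖ - ‖q‖)]
  have h1 := hdual y (y + v)
  have h2 := hdual (y + v) y
  rw [add_sub_cancel_left] at h1
  have h3 : y - (y + v) = -v := by abel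
  rw [h3, map_neg] at h2
  have h4 : J (y + v) v - J y v ≤ L * ‖v‖ * ‖v‖ := by
    have h5 : J (y + v) v - J y v = (J (y + v) - J y) v := rfl
    rw [h5]
    refine (le_abs_self _).trans ?_
    have h6 := (J (y + v) - J y).le_opNorm v
    rw [Real.norm_eq_abs] at h6
    refine h6.trans ?_
    have h7 := hL (y + v) y
    rw [add_sub_cancel_left] at h7
    gcongr
  have h5 : L * ‖v‖ * ‖v‖ ≤ ε * ‖v‖ := by
    have h6 : L * ‖v‖ ≤ ε := by
      rw [lt_div_iff₀ hL0] at hv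
      linarith
    gcongr
  rw [Real.norm_eq_abs, abs_of_nonneg (by linarith)]
  linarith

end Pool.Agent.Helper53.BM
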