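import Pool.Agent.Helper79.MH.HessCore
import Pool.Agent.Helper12.MH.Lip

set_option autoImplicit false

/-!
# The Hessian of half the squared norm of a micro-transitive space
-/

open Filter Topology

namespace Pool.Agent.Helper53.BM

universe u

variable {E : Type u} [NormedAddCommGroup E] [NormedSpace ℝ E]

theorem J_hasFDerivAt (h : MicroSp E) {x : E} (hx : x ≠ 0) : HasFDerivAt J (hess x) x := by
  obtain ⟨L, hL0, hL⟩ := J_lipschitz h
  exact (J_differentiableAt h hL0 hL hx).hasFDerivAt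

theorem hess_symm (h : MicroSp E) {x : E} (hx : x ≠ 0) (v w : E) :
    hess x v w = hess x w v := by
  obtain ⟨L, hL0, hL⟩ := J_lipschitz h
  exact second_derivative_symmetric (fun y => halfSq_hasFDerivAt hL0 hL y) (J_hasFDerivAt h hx) v w

/-- Difference quotients of the duality map. -/
lemma hess_tendsto (h : MicroSp E) {x : E} (hx : x ≠ 0) (v : E) :
    Tendsto (fun t : ℝ => t⁻¹ • (J (x + t • v) - J x)) (𝓝[≠] 0) (𝓝 (hess x v)) := by
  have h1 : HasDerivAt (fun t : ℝ => J (x + t • v)) (hess x v) 0 := by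
    have h2 : HasDerivAt (fun t : ℝ => x + t • v) v 0 := by
      simpa using ((hasDerivAt_id (0 : ℝ)).smul_const v).const_add x
    have h3 : HasFDerivAt J (hess x) (x + (0 : ℝ) • v) := by
      rw [zero_smul, add_zero]
      exact J_hasFDerivAt h hx
    exact h3.comp_hasDerivAt (0 : ℝ) h2
  have h2 := h1.tendsto_slope_zero
  simpa using h2

theorem hess_bounds [CompleteSpace E] (h : MicroSp E) : ∃ L c : ℝ, 0 < L ∧ 0 < c ∧
    ∀ x : E, x ≠ 0 → ‖hess x‖ ≤ L ∧ ∀ v, c * ‖v‖ ^ 2 ≤ hess x v v := by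
  obtain ⟨L, hL0, hL⟩ := J_lipschitz h
  obtain ⟨c, hc0, hc⟩ := J_strong_mono h
  refine ⟨L, c, hL0, hc0, fun x hx => ⟨?_, fun v => ?_⟩⟩
  · refine ContinuousLinearMap.opNorm_le_bound _ hL0.le fun v => ?_
    refine le_of_tendsto (hess_tendsto h hx v).norm ?_
    filter_upwards [self_mem_nhdsWithin] with t ht
    have ht' : (0 : ℝ) < |t| := abs_pos.mpr ht
    rw [norm_smul, norm_inv, Real.norm_eq_abs]
    have h1 := hL (x + t • v) x
    rw [add_sub_cancel_left, norm_smul, Real.norm_eq_abs] at h1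
    calc |t|⁻¹ * ‖J (x + t • v) - J x‖ ≤ |t|⁻¹ * (L * (|t| * ‖v‖)) := by gcongr
      _ = L * ‖v‖ := by field_simp
  · have h1 : Tendsto (fun t : ℝ => (t⁻¹ • (J (x + t • v) - J x)) v) (𝓝[≠] 0)
        (𝓝 (hess x v v)) :=
      ((ContinuousLinearMap.apply ℝ ℝ v).continuous.tendsto _).comp (hess_tendsto h hx v)
    refine ge_of_tendsto h1 ?_
    filter_upwards [self_mem_nhdsWithin] with t ht
    have ht' : t ≠ 0 := ht
    have h2 := hc (x + t • v) x
    rw [add_sub_cancel_left, norm_smul, map_smul, mul_pow, Real.norm_eq_abs, sq_abs,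
      smul_eq_mul] at h2
    have h3 : (t⁻¹ • (J (x + t • v) - J x)) v = t⁻¹ * ((J (x + t • v) - J x) v) := rfl
    rw [h3]
    have h4 : t⁻¹ * ((J (x + t • v) - J x) v) =
        (t ^ 2)⁻¹ * (t * ((J (x + t • v) - J x) v)) := by
      field_simp
    rw [h4]
    have h5 : c * ‖v‖ ^ 2 = (t ^ 2)⁻¹ * (c * (t ^ 2 * ‖v‖ ^ 2)) := by
      field_simp
    rw [h5]
    gcongr

theorem hess_self (h : MicroSp E) {x : E} (hx : x ≠ 0) (v : E) : hess x x v = J x v := by
  have h1 := hess_tendsto h hx x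
  have h2 : Tendsto (fun t : ℝ => t⁻¹ • (J (x + t • x) - J x)) (𝓝[≠] 0) (𝓝 (J x)) := by
    refine tendsto_const_nhds.congr' ?_
    filter_upwards [self_mem_nhdsWithin] with t ht
    have ht' : t ≠ 0 := ht
    have h3 : x + t • x = (1 + t) • x := by rw [add_smul, one_smul]
    rw [h3, J_smul h.hmt]
    have h4 : (1 + t) • J x - J x = t • J x := by module
    rw [h4, smul_smul, inv_mul_cancel₀ ht', one_smul]
  rw [tendsto_nhds_unique h1 h2]

theorem hess_map (h : MicroSp E) {x : E} (hx : x ≠ 0) (T : E ≃ₗᵢ[ℝ] E) (v w : E) :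
    hess (T x) (T v) (T w) = hess x v w := by
  have hTx : T x ≠ 0 := by
    intro h0
    exact hx (T.map_eq_zero_iff.mp h0)
  have h1 : Tendsto (fun t : ℝ => (t⁻¹ • (J (T x + t • T v) - J (T x))) (T w)) (𝓝[≠] 0)
      (𝓝 (hess (T x) (T v) (T w))) :=
    ((ContinuousLinearMap.apply ℝ ℝ (T w)).continuous.tendsto _).comp (hess_tendsto h hTx (T v))
  have h2 : Tendsto (fun t : ℝ => (t⁻¹ • (J (x + t • v) - J x)) w) (𝓝[≠] 0)
      (𝓝 (hess x v w)) :=
    ((ContinuousLinearMap.apply ℝ ℝ w).continuous.tendsto _).comp (hess_tendsto h hx v)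
  refine tendsto_nhds_unique h1 (h2.congr fun t => ?_)
  have h3 : T x + t • T v = T (x + t • v) := by rw [map_add, map_smul]
  have h4 : ∀ f g : StrongDual ℝ E, ∀ z : E, (t⁻¹ • (f - g)) z = t⁻¹ * (f z - g z) :=
    fun _ _ _ => rfl
  rw [h3, J_map h.hmt, J_map h.hmt, h4, h4, push_apply, push_apply,
    LinearIsometryEquiv.symm_apply_apply]

theorem hess_smul (h : MicroSp E) {x : E} (hx : x ≠ 0) {c : ℝ} (hc : c ≠ 0) :
    hess (c • x) = hess x := by
  have hcx : c • x ≠ 0 := smul_ne_zero hc hx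
  refine ContinuousLinearMap.ext fun v => ?_
  have h1 := hess_tendsto h hcx (c • v)
  have h2 : Tendsto (fun t : ℝ => c • (t⁻¹ • (J (x + t • v) - J x))) (𝓝[≠] 0)
      (𝓝 (c • hess x v)) := (hess_tendsto h hx v).const_smul c
  have h3 : hess (c • x) (c • v) = c • hess x v := by
    refine tendsto_nhds_unique h1 (h2.congr fun t => ?_)
    have h4 : c • x + t • c • v = c • (x + t • v) := by
      rw [smul_add, smul_comm]
    rw [h4, J_smul h.hmt, J_smul h.hmt]
    module
  rw [map_smul] at h3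
  have h4 := congrArg (fun f => c⁻¹ • f) h3
  simpa [smul_smul, inv_mul_cancel₀ hc] using h4

end Pool.Agent.Helper53.BM
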